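import Pool.Agent.H40.G15

set_option autoImplicit false

namespace Pool.Agent.Results.MP_51da30_lc.Model

open Pool.Agent.H40.Bspt Pool.Agent.H40.Jz

variable {M : Type} (E : M → M → Prop)

/-- the union of a countable family of countable sets is countable -/
def CUC : Prop :=
  ∀ A W, Ctbl E A → (∀ X, E X A → Ctbl E X) → (∀ z, E z W ↔ ∃ X, E X A ∧ E z X) → Ctbl E W

theorem result : ∃ (M : Type) (E : M → M → Prop) (ν : ℕ → M), IsZF E ∧ Numer E ν ∧
    BPI E ∧ ¬ CUC E :=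
  let ⟨M, E, Q, S, B⟩ := Pool.Agent.H40.Gn.ex_bm
  let ⟨A, W, a, b, c, d, _⟩ := S.ncuc Q.zf
  ⟨M, E, Q.ν, Q.zf, Q.num, B.bpi Q.zf, fun e => d (e A W a b c)⟩

end Pool.Agent.Results.MP_51da30_lc.Model
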